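import Mathlib
import Pool.Agent.H49.FQ.Key
import Pool.Agent.H49.FQ.Avoid
import Pool.Agent.H49.FQ.Cor

/-!
# Spherical conjugacy languages and edges of the image in a free group (MP_d3f668_al)

`f : G → F(Z)` a homomorphism, `lam`, `gam : F(Z) → ℤ`, `u`, `v` images of letters with
`lam u = lam v = M > 0`, `gam u = 0 < c = gam v`. If every letter has an image with `lam < M`, or
`lam = M` and the image is `u` or `v` or has `gam > c`, then `SL(G,X)` is not regular. This applies
to all finite generating sets `X = X⁻¹` of groups with a free quotient `F(Z)` of rank at least two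
such that different images of letters in `F(Z)` have different abelianisations.
-/

set_option autoImplicit false

namespace Pool.Agent.Results.MP_d3f668_al.EdgeQuotients

open Multiplicative

variable {G α Z : Type} [Group G]

/-- The element of `G` represented by the word `w` over the alphabet `α` (letters `ι a`). -/
def ev (ι : α → G) (w : List α) : G := (w.map ι).prod

/-- The spherical conjugacy language `SL(G,X)`: the words which are shortlex least among all words
representing elements of the same conjugacy class. -/
def SL [LinearOrder α] (ι : α → G) : Language α :=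
  {w : List α | ∀ v : List α, IsConj (ev ι v) (ev ι w) →
    (w.length < v.length ∨ (w.length = v.length ∧ (w = v ∨ w < v)))}

lemma ev_nil (ι : α → G) : ev ι [] = 1 := rfl

lemma ev_append (ι : α → G) (u v : List α) : ev ι (u ++ v) = ev ι u * ev ι v := by
  simp [ev]

lemma ev_cons (ι : α → G) (a : α) (v : List α) : ev ι (a :: v) = ι a * ev ι v := by
  simp [ev]

/-! ### lexicographic order -/

section Lex

variable [LinearOrder α]

lemma le_of_map (g : α → α) (v : List α) (h : ∀ x ∈ v, g x ≤ x) : v.map g ≤ v := by
  induction v with
  | nil => exact le_refl _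
  | cons a v ih =>
    rw [List.map_cons]
    have h1 := h a List.mem_cons_self
    have h2 := ih fun x hx => h x (List.mem_cons_of_mem _ hx)
    rcases eq_or_lt_of_le h1 with h3 | h3
    · rw [h3]
      rcases eq_or_lt_of_le h2 with h4 | h4
      · rw [h4]
      · exact le_of_lt (List.cons_lt_cons_iff.2 (Or.inr ⟨rfl, h4⟩))
    · exact le_of_lt (List.cons_lt_cons_iff.2 (Or.inl h3))

lemma rep_lt (x y : α) (hxy : x < y) (i m : ℕ) (him : i < m) (u v : List α) :
    List.replicate m x ++ u < List.replicate i x ++ (y :: v) := by
  induction i generalizing m with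
  | zero =>
    obtain ⟨m, rfl⟩ : ∃ k, m = k + 1 := ⟨m - 1, by omega⟩
    rw [List.replicate_succ]
    exact List.cons_lt_cons_iff.2 (Or.inl hxy)
  | succ i ih =>
    obtain ⟨m, rfl⟩ : ∃ k, m = k + 1 := ⟨m - 1, by omega⟩
    rw [List.replicate_succ, List.replicate_succ]
    exact List.cons_lt_cons_iff.2 (Or.inr ⟨rfl, ih m (by omega)⟩)

end Lex

/-! ### lists with two `true`s -/

lemma two_trues (l : List Bool) (h : l.count true = 2) : ∃ i j k : ℕ,
    l = List.replicate i false ++ true :: (List.replicate j false ++
      true :: List.replicate k false) := by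
  have h0 : ∀ l : List Bool, l.count true = 0 → l = List.replicate l.length false := by
    intro l hl
    rw [List.eq_replicate_iff]
    refine ⟨rfl, fun b hb => ?_⟩
    cases b
    · rfl
    · exact absurd hb (List.count_eq_zero.1 hl)
  have h1 : ∀ l : List Bool, l.count true = 1 → ∃ j k : ℕ,
      l = List.replicate j false ++ true :: List.replicate k false := by
    intro l
    induction l with
    | nil => intro hl; simp at hl
    | cons b l ih =>
      intro hl
      cases b
      · rw [List.count_cons_of_ne (by simp)] at hl
        obtain ⟨j, k, e⟩ := ih hl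
        exact ⟨j + 1, k, by rw [e, List.replicate_succ, List.cons_append]⟩
      · rw [List.count_cons_self] at hl
        exact ⟨0, l.length, by rw [← h0 l (by omega)]; rfl⟩
  induction l with
  | nil => simp at h
  | cons b l ih =>
    cases b
    · rw [List.count_cons_of_ne (by simp)] at h
      obtain ⟨i, j, k, e⟩ := ih h
      exact ⟨i + 1, j, k, by rw [e, List.replicate_succ, List.cons_append]⟩
    · rw [List.count_cons_self] at h
      obtain ⟨j, k, e⟩ := h1 l (by omega)
      exact ⟨0, j, k, by rw [e]; rfl⟩

/-! ### words with image in the monoid generated by `u` and `v` -/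

section Words

variable [LinearOrder α]

lemma rep_lt' (x y : α) (hyx : y < x) (i m : ℕ) (him : i < m) (u v : List α) :
    List.replicate i x ++ (y :: u) < List.replicate m x ++ v := by
  induction i generalizing m with
  | zero =>
    obtain ⟨m, rfl⟩ : ∃ k, m = k + 1 := ⟨m - 1, by omega⟩
    rw [List.replicate_succ]
    exact List.cons_lt_cons_iff.2 (Or.inl hyx)
  | succ i ih =>
    obtain ⟨m, rfl⟩ : ∃ k, m = k + 1 := ⟨m - 1, by omega⟩
    rw [List.replicate_succ, List.replicate_succ]
    exact List.cons_lt_cons_iff.2 (Or.inr ⟨rfl, ih m (by omega)⟩)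

end Words

section Hom

variable (ι : α → G) (f : G →* FreeGroup Z) (lam gam : FreeGroup Z →* Multiplicative ℤ)
  (u v : FreeGroup Z) (M c : ℤ)

/-- the sum of the values of `gam` (or `lam`) -/
lemma sum_word (h : FreeGroup Z →* Multiplicative ℤ) (y : List α) :
    toAdd (h (f (ev ι y))) = (y.map fun x => toAdd (h (f (ι x)))).sum := by
  induction y with
  | nil => simp [ev_nil]
  | cons a y ih =>
    rw [ev_cons, map_mul, map_mul, toAdd_mul, ih, List.map_cons, List.sum_cons]

lemma lam_word (hle : ∀ x, toAdd (lam (f (ι x))) ≤ M) (y : List α) :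
    (y.map fun x => toAdd (lam (f (ι x)))).sum ≤ M * y.length ∧
      ((y.map fun x => toAdd (lam (f (ι x)))).sum = M * y.length →
        ∀ x ∈ y, toAdd (lam (f (ι x))) = M) := by
  induction y with
  | nil => simp
  | cons a y ih =>
    rw [List.map_cons, List.sum_cons, List.length_cons]
    push_cast
    have ha := hle a
    refine ⟨by linarith [ih.1], fun he => ?_⟩
    have h1 : toAdd (lam (f (ι a))) = M := by linarith [ih.1]
    have h2 : (y.map fun x => toAdd (lam (f (ι x)))).sum = M * y.length := by
      linarith [ih.1]
    intro x hx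
    rcases List.mem_cons.1 hx with rfl | hx
    · exact h1
    · exact ih.2 h2 x hx

lemma gam_gap (hc : 0 < c) (hgu : toAdd (gam u) = 0) (hgv : toAdd (gam v) = c) (y : List α)
    (hy : ∀ x ∈ y, f (ι x) = u ∨ f (ι x) = v ∨ c < toAdd (gam (f (ι x)))) :
    ((y.map fun x => toAdd (gam (f (ι x)))).sum = 0 ∧ ∀ x ∈ y, f (ι x) = u) ∨
      c ≤ (y.map fun x => toAdd (gam (f (ι x)))).sum := by
  induction y with
  | nil => simp
  | cons a y ih =>
    rw [List.map_cons, List.sum_cons]
    have h1 := ih fun x hx => hy x (List.mem_cons_of_mem _ hx)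
    rcases hy a List.mem_cons_self with h | h | h
    · rw [h, hgu]
      rcases h1 with h1 | h1
      · left
        refine ⟨by linarith [h1.1], fun x hx => ?_⟩
        rcases List.mem_cons.1 hx with rfl | hx
        · exact h
        · exact h1.2 x hx
      · right; linarith
    · rw [h, hgv]
      right
      rcases h1 with h1 | h1
      · linarith [h1.1]
      · linarith
    · right
      rcases h1 with h1 | h1
      · linarith [h1.1]
      · linarith

lemma gam_two (hc : 0 < c) (hgu : toAdd (gam u) = 0) (hgv : toAdd (gam v) = c) (y : List α)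
    (hy : ∀ x ∈ y, f (ι x) = u ∨ f (ι x) = v ∨ c < toAdd (gam (f (ι x))))
    (hs : (y.map fun x => toAdd (gam (f (ι x)))).sum = 2 * c) :
    (∀ x ∈ y, f (ι x) = u ∨ f (ι x) = v) ∨
      ∃ (s t : List α) (x : α), y = s ++ x :: t ∧ ∀ z ∈ s ++ t, f (ι z) = u := by
  by_cases hall : ∀ x ∈ y, f (ι x) = u ∨ f (ι x) = v
  · exact Or.inl hall
  · right
    push Not at hall
    obtain ⟨x, hx, hxu, hxv⟩ := hall
    rcases hy x hx with h | h | h
    · exact absurd h hxu
    · exact absurd h hxv
    · obtain ⟨s, t, rfl⟩ := List.append_of_mem hx
      have h1 := gam_gap ι f gam u v c hc hgu hgv (s ++ t) (fun z hz => hy z (by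
        simp only [List.mem_append, List.mem_cons] at hz ⊢
        tauto))
      rw [List.map_append, List.map_cons, List.sum_append, List.sum_cons] at hs
      rw [List.map_append, List.sum_append] at h1
      rcases h1 with h1 | h1
      · exact ⟨s, t, x, rfl, h1.2⟩
      · linarith

lemma ev_pow (s : List α) (hs : ∀ z ∈ s, f (ι z) = u) : f (ev ι s) = u ^ s.length := by
  induction s with
  | nil => simp [ev_nil]
  | cons a s ih =>
    rw [ev_cons, map_mul, ih fun z hz => hs z (List.mem_cons_of_mem _ hz),
      hs a List.mem_cons_self, List.length_cons, pow_succ']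

open Classical in
/-- the list of the letters over `v` -/
noncomputable def code (y : List α) : List Bool := y.map fun x => decide (f (ι x) = v)

/-- the product coded by a list -/
def cprod (l : List Bool) : FreeGroup Z := (l.map fun b => if b then v else u).prod

lemma cprod_form (i j k : ℕ) : cprod u v (List.replicate i false ++ true ::
    (List.replicate j false ++ true :: List.replicate k false)) =
      u ^ i * (v * (u ^ j * (v * u ^ k))) := by
  simp [cprod]

lemma code_word (huv : u ≠ v) (hgu : toAdd (gam u) = 0) (hgv : toAdd (gam v) = c) (y : List α)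
    (hy : ∀ x ∈ y, f (ι x) = u ∨ f (ι x) = v) :
    (y.map fun x => toAdd (gam (f (ι x)))).sum = c * ((code ι f v y).count true : ℤ) ∧
      f (ev ι y) = cprod u v (code ι f v y) := by
  classical
  induction y with
  | nil => simp [ev_nil, code, cprod]
  | cons a y ih =>
    obtain ⟨i1, i2⟩ := ih fun x hx => hy x (List.mem_cons_of_mem _ hx)
    have ec : code ι f v (a :: y) = decide (f (ι a) = v) :: code ι f v y := by
      simp [code]
    rw [ev_cons, map_mul f, List.map_cons, List.sum_cons, i1, i2, ec]
    rcases hy a List.mem_cons_self with h | h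
    · rw [h]
      constructor
      · rw [List.count_cons_of_ne (by simp [huv]), hgu]
        ring
      · simp [cprod, huv]
    · rw [h]
      constructor
      · simp only [decide_true, List.count_cons_self]
        rw [hgv]
        push_cast
        ring
      · simp [cprod]

end Hom

/-- `SL` is not regular if there is an edge. -/
theorem edge [LinearOrder α] [Fintype α] (ι : α → G) (f : G →* FreeGroup Z)
    (lam gam : FreeGroup Z →* Multiplicative ℤ) (u v : FreeGroup Z) (M c : ℤ)
    (hM : 0 < M) (hc : 0 < c) (hlu : toAdd (lam u) = M) (hlv : toAdd (lam v) = M)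
    (hgu : toAdd (gam u) = 0) (hgv : toAdd (gam v) = c)
    (hu : ∃ x, f (ι x) = u) (hv : ∃ x, f (ι x) = v)
    (hf : ∀ x, toAdd (lam (f (ι x))) < M ∨ (toAdd (lam (f (ι x))) = M ∧
      (f (ι x) = u ∨ f (ι x) = v ∨ c < toAdd (gam (f (ι x)))))) :
    ¬ (SL ι).IsRegular := by
  classical
  have huv : u ≠ v := by
    rintro rfl
    omega
  have hle : ∀ x, toAdd (lam (f (ι x))) ≤ M := by
    intro x
    rcases hf x with h | h
    · exact h.le
    · exact h.1.le
  -- least letters over `u` and `v`
  have hmin : ∀ z : FreeGroup Z, (∃ x, f (ι x) = z) →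
      ∃ x, f (ι x) = z ∧ ∀ y, f (ι y) = z → x ≤ y := by
    intro z hzx
    obtain ⟨x, hx⟩ := hzx
    obtain ⟨y, hy, hm⟩ := Finset.exists_min_image
      (Finset.univ.filter fun y : α => f (ι y) = z) id
      ⟨x, by simp [hx]⟩
    refine ⟨y, (Finset.mem_filter.1 hy).2, fun w hw => hm w (by simp [hw])⟩
  obtain ⟨x₁, e₁, m₁⟩ := hmin u hu
  obtain ⟨x₂, e₂, m₂⟩ := hmin v hv
  clear hu hv
  have hxx : x₁ ≠ x₂ := by
    intro h
    rw [h, e₂] at e₁
    exact huv e₁.symm
  have hne : toAdd (lam u) * toAdd (gam v) ≠ toAdd (lam v) * toAdd (gam u) := by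
    rw [hlu, hgv, hlv, hgu, mul_zero]
    exact (mul_pos hM hc).ne'
  have hcomm : u * v ≠ v * u := by
    intro h
    have h1 := Pool.Agent.H49.FQ.key lam gam u v hne 2 0 1 rfl (by
      have h2 : u ^ 2 * v * (u ^ 0 * v) = u ^ 1 * v * (u ^ 1 * v) := by
        have h3 : u * v * (u * v) = u * (u * v) * v := by rw [mul_assoc, ← mul_assoc v, ← h]; group
        rw [pow_zero, pow_one, one_mul, h3, pow_two]
        group
      rw [h2])
    omega
  rintro ⟨σ, hσ, Mac, hMac⟩
  obtain ⟨n, hnσ, hav⟩ := Pool.Agent.H49.FQ.avoid u v hcomm (fun x : α => f (ι x))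
    (Fintype.card σ)
  -- the shape of the short conjugates
  have shape : ∀ (w y : List α), w.length = 2 * n + 2 →
      (∀ x ∈ w, f (ι x) = u ∨ f (ι x) = v) →
      (y.map fun x => toAdd (gam (f (ι x)))).sum = 2 * c →
      f (ev ι w) = u ^ n * v * (u ^ n * v) ∨ f (ev ι w) = v * u ^ n * (v * u ^ n) →
      IsConj (ev ι y) (ev ι w) → (w.length < y.length ∨ (w.length = y.length ∧
        ∃ i k : ℕ, i + k = n ∧ List.replicate i x₁ ++
          x₂ :: (List.replicate n x₁ ++ x₂ :: List.replicate k x₁) ≤ y)) := by
    intro w y hwlen hwl hsy hfw hcj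
    have hfc : IsConj (f (ev ι y)) (f (ev ι w)) := f.map_isConj hcj
    have htv : lam (f (ev ι y)) = lam (f (ev ι w)) :=
      isConj_iff_eq.1 (lam.map_isConj hfc)
    have hlw : toAdd (lam (f (ev ι w))) = M * w.length := by
      rw [sum_word]
      have h1 : w.map (fun x => toAdd (lam (f (ι x)))) = w.map (fun _ => M) := by
        apply List.map_congr_left
        intro x hx
        rcases hwl x hx with h | h <;> rw [h] <;> assumption
      rw [h1]
      simp
      ring
    have hv1 := lam_word ι f lam M hle y
    rw [← sum_word, htv, hlw] at hv1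
    rcases Nat.lt_or_ge w.length y.length with hl | hl
    · exact Or.inl hl
    · right
      have hleq : w.length = y.length := by
        have h1 := hv1.1
        have h2 : (w.length : ℤ) ≤ y.length := by
          by_contra h3
          push Not at h3
          nlinarith
        have h3 : w.length ≤ y.length := by exact_mod_cast h2
        omega
      refine ⟨hleq, ?_⟩
      have hface := hv1.2 (by rw [hleq])
      have hy : ∀ x ∈ y, f (ι x) = u ∨ f (ι x) = v ∨ c < toAdd (gam (f (ι x))) := by
        intro x hx
        rcases hf x with h | h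
        · exact absurd (hface x hx) h.ne
        · exact h.2
      have c2 : IsConj (f (ev ι w)) (u ^ n * v * (u ^ n * v)) := by
        rcases hfw with h | h
        · rw [h]
        · rw [h, isConj_iff]
          refine ⟨u ^ n, ?_⟩
          group
      have hyl : ∀ x ∈ y, f (ι x) = u ∨ f (ι x) = v := by
        rcases gam_two ι f gam u v c hc hgu hgv y hy hsy with h | ⟨s, t, x, hst, hz⟩
        · exact h
        · exfalso
          have hlen : t.length + s.length = 2 * n + 1 := by
            have h1 := congrArg List.length hst
            rw [List.length_append, List.length_cons] at h1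
            omega
          have hs1 := ev_pow ι f u s fun z h => hz z (List.mem_append_left _ h)
          have ht1 := ev_pow ι f u t fun z h => hz z (List.mem_append_right _ h)
          have hfy : f (ev ι y) = u ^ s.length * (f (ι x) * u ^ t.length) := by
            rw [hst, ev_append, ev_cons, map_mul, map_mul, hs1, ht1]
          refine hav x (IsConj.trans ?_ (hfc.trans c2))
          rw [hfy, isConj_iff]
          refine ⟨(u ^ t.length)⁻¹, ?_⟩
          rw [← hlen, pow_add]
          group
      obtain ⟨bv1, bv2⟩ := code_word ι f gam u v c huv hgu hgv y hyl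
      have hcnt : (code ι f v y).count true = 2 := by
        rw [hsy] at bv1
        have h1 : ((code ι f v y).count true : ℤ) = 2 := by
          have h2 : c * (((code ι f v y).count true : ℤ) - 2) = 0 := by linarith
          rcases mul_eq_zero.1 h2 with h3 | h3
          · omega
          · linarith
        exact_mod_cast h1
      obtain ⟨i, j, k, hijk⟩ := two_trues _ hcnt
      have hsum : i + j + k = 2 * n := by
        have h1 : (code ι f v y).length = y.length := by simp [code]
        rw [hijk] at h1
        simp at h1
        omega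
      have hfy : f (ev ι y) = u ^ i * (v * (u ^ j * (v * u ^ k))) := by
        rw [bv2, hijk, cprod_form]
      have hconj : IsConj (u ^ (i + k) * v * (u ^ j * v)) (u ^ n * v * (u ^ n * v)) := by
        have c1 : IsConj (u ^ (i + k) * v * (u ^ j * v)) (f (ev ι y)) := by
          rw [hfy, isConj_iff]
          refine ⟨(u ^ k)⁻¹, ?_⟩
          rw [show i + k = k + i from Nat.add_comm i k, pow_add]
          group
        exact c1.trans (hfc.trans c2)
      have hik : i + k = n := Pool.Agent.H49.FQ.key lam gam u v hne (i + k) j n
        (by omega) hconj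
      have hjn : j = n := by omega
      subst hjn
      refine ⟨i, k, hik, ?_⟩
      have hle1 : y.map (fun x => if f (ι x) = v then x₂ else x₁) ≤ y := by
        apply le_of_map
        intro x hx
        by_cases h2 : f (ι x) = v
        · rw [if_pos h2]
          exact m₂ x h2
        · rw [if_neg h2]
          rcases hyl x hx with h3 | h3
          · exact m₁ x h3
          · exact absurd h3 h2
      have hmap : y.map (fun x => if f (ι x) = v then x₂ else x₁) =
          (code ι f v y).map (fun b => if b then x₂ else x₁) := by
        rw [code, List.map_map]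
        apply List.map_congr_left
        intro x _
        by_cases h2 : f (ι x) = v <;> simp [h2]
      have hform : (code ι f v y).map (fun b => if b then x₂ else x₁) =
          List.replicate i x₁ ++ x₂ :: (List.replicate j x₁ ++ x₂ :: List.replicate k x₁) := by
        rw [hijk]
        simp
      rw [hmap, hform] at hle1
      exact hle1
  have hgconj : ∀ (w y : List α), IsConj (ev ι y) (ev ι w) →
      (w.map fun x => toAdd (gam (f (ι x)))).sum = 2 * c →
      (y.map fun x => toAdd (gam (f (ι x)))).sum = 2 * c := by
    intro w y hcj hs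
    have h1 : gam (f (ev ι y)) = gam (f (ev ι w)) :=
      isConj_iff_eq.1 (gam.map_isConj (f.map_isConj hcj))
    rw [← sum_word] at hs ⊢
    rw [h1, hs]
  rcases lt_or_gt_of_ne hxx with hlt | hlt
  · -- `x₁ < x₂`
    have hmem : List.replicate n x₁ ++ x₂ :: (List.replicate n x₁ ++ x₂ :: []) ∈ SL ι := by
      intro y hy
      set w : List α := List.replicate n x₁ ++ x₂ :: (List.replicate n x₁ ++ x₂ :: []) with hw
      have hwlen : w.length = 2 * n + 2 := by
        simp [hw]; ring
      have hwl : ∀ x ∈ w, f (ι x) = u ∨ f (ι x) = v := by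
        intro x hx
        simp only [hw, List.mem_append, List.mem_replicate, List.mem_cons, List.not_mem_nil,
          or_false] at hx
        rcases hx with ⟨_, rfl⟩ | rfl | ⟨_, rfl⟩ | rfl
        · exact Or.inl e₁
        · exact Or.inr e₂
        · exact Or.inl e₁
        · exact Or.inr e₂
      have hws : (w.map fun x => toAdd (gam (f (ι x)))).sum = 2 * c := by
        simp [hw, e₁, e₂, hgu, hgv]
        ring
      have hfw : f (ev ι w) = u ^ n * v * (u ^ n * v) := by
        rw [hw, ev_append, ev_cons, ev_append, ev_cons, ev_nil]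
        simp [ev, e₁, e₂, mul_assoc]
      rcases shape w y hwlen hwl (hgconj w y hy hws) (Or.inl hfw) hy with h | ⟨h, i, k, hik, h'⟩
      · exact Or.inl h
      · refine Or.inr ⟨h, ?_⟩
        have hle2 : w ≤ List.replicate i x₁ ++
            x₂ :: (List.replicate n x₁ ++ x₂ :: List.replicate k x₁) := by
          rcases eq_or_lt_of_le (show i ≤ n by omega) with h5 | h5
          · have hk : k = 0 := by omega
            rw [h5, hk]
            exact le_refl _
          · exact le_of_lt (rep_lt x₁ x₂ hlt i n h5 _ _)
        exact eq_or_lt_of_le (hle2.trans h')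
    obtain ⟨q, a, b, d, habc, -, hb, h1, h2, h3⟩ :=
      Mac.evalFrom_split (s := Mac.start) (x := List.replicate n x₁) (by simpa using hnσ) rfl
    have hacc : a ++ d ++ x₂ :: (List.replicate n x₁ ++ x₂ :: []) ∈ SL ι := by
      have h4 := hmem
      rw [← hMac, DFA.mem_accepts] at h4 ⊢
      rw [DFA.eval, DFA.evalFrom_of_append] at h4 ⊢
      rw [DFA.evalFrom_of_append, h1, h3]
      exact h4
    have hl := congrArg List.length habc
    rw [List.length_replicate, List.length_append, List.length_append] at hl
    have hac : a ++ d = List.replicate (n - b.length) x₁ := by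
      rw [List.eq_replicate_iff]
      refine ⟨by rw [List.length_append]; omega, fun x hx => ?_⟩
      have hx' : x ∈ List.replicate n x₁ := by
        rw [habc]
        simp only [List.mem_append] at hx ⊢
        tauto
      exact (List.mem_replicate.1 hx').2
    rw [hac] at hacc
    have hbpos : 0 < b.length := List.length_pos_iff.2 hb
    have hbn : b.length ≤ n := by omega
    have hfin := hacc (List.replicate n x₁ ++
        x₂ :: (List.replicate (n - b.length) x₁ ++ x₂ :: [])) (by
      rw [isConj_iff]
      refine ⟨(ev ι (List.replicate n x₁ ++ x₂ :: []))⁻¹, ?_⟩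
      have t1 : ev ι (List.replicate n x₁ ++
          x₂ :: (List.replicate (n - b.length) x₁ ++ x₂ :: [])) =
          ev ι (List.replicate n x₁ ++ x₂ :: []) *
            ev ι (List.replicate (n - b.length) x₁ ++ x₂ :: []) := by
        rw [← ev_append]
        simp
      have t2 : ev ι (List.replicate (n - b.length) x₁ ++
          x₂ :: (List.replicate n x₁ ++ x₂ :: [])) =
          ev ι (List.replicate (n - b.length) x₁ ++ x₂ :: []) *
            ev ι (List.replicate n x₁ ++ x₂ :: []) := by
        rw [← ev_append]
        simp
      rw [t1, t2]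
      group)
    have hlen : (List.replicate (n - b.length) x₁ ++
        x₂ :: (List.replicate n x₁ ++ x₂ :: [])).length =
        (List.replicate n x₁ ++ x₂ :: (List.replicate (n - b.length) x₁ ++ x₂ :: [])).length := by
      simp
      omega
    have hlt2 := rep_lt x₁ x₂ hlt (n - b.length) n (by omega)
      (x₂ :: (List.replicate (n - b.length) x₁ ++ x₂ :: [])) (List.replicate n x₁ ++ x₂ :: [])
    rcases hfin with h5 | ⟨_, h5 | h5⟩
    · omega
    · rw [h5] at hlt2
      exact lt_irrefl _ hlt2
    · exact lt_irrefl _ (lt_trans h5 hlt2)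
  · -- `x₂ < x₁`
    have hmem : (x₂ :: (List.replicate n x₁ ++ [x₂])) ++ List.replicate n x₁ ∈ SL ι := by
      intro y hy
      set w : List α := (x₂ :: (List.replicate n x₁ ++ [x₂])) ++ List.replicate n x₁ with hw
      have hwlen : w.length = 2 * n + 2 := by
        simp [hw]; ring
      have hwl : ∀ x ∈ w, f (ι x) = u ∨ f (ι x) = v := by
        intro x hx
        simp only [hw, List.mem_append, List.mem_replicate, List.mem_cons, List.cons_append,
          List.append_assoc, List.nil_append] at hx
        rcases hx with rfl | ⟨_, rfl⟩ | rfl | ⟨_, rfl⟩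
        · exact Or.inr e₂
        · exact Or.inl e₁
        · exact Or.inr e₂
        · exact Or.inl e₁
      have hws : (w.map fun x => toAdd (gam (f (ι x)))).sum = 2 * c := by
        simp [hw, e₁, e₂, hgu, hgv]
        ring
      have hfw : f (ev ι w) = v * u ^ n * (v * u ^ n) := by
        rw [hw]
        simp [ev, e₁, e₂, mul_assoc]
      rcases shape w y hwlen hwl (hgconj w y hy hws) (Or.inr hfw) hy with h | ⟨h, i, k, hik, h'⟩
      · exact Or.inl h
      · refine Or.inr ⟨h, ?_⟩
        have hle2 : w ≤ List.replicate i x₁ ++
            x₂ :: (List.replicate n x₁ ++ x₂ :: List.replicate k x₁) := by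
          rcases Nat.eq_zero_or_pos i with h5 | h5
          · have hk : k = n := by omega
            rw [h5, hk, hw]
            simp
          · have h6 := rep_lt' x₁ x₂ hlt 0 i h5 (List.replicate n x₁ ++ [x₂] ++
              List.replicate n x₁) (x₂ :: (List.replicate n x₁ ++ x₂ :: List.replicate k x₁))
            rw [hw]
            refine le_of_lt ?_
            simpa using h6
        exact eq_or_lt_of_le (hle2.trans h')
    obtain ⟨q, a, b, d, habc, -, hb, h1, h2, h3⟩ :=
      Mac.evalFrom_split (s := Mac.eval (x₂ :: (List.replicate n x₁ ++ [x₂])))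
        (x := List.replicate n x₁) (by simpa using hnσ) rfl
    have hacc : (x₂ :: (List.replicate n x₁ ++ [x₂])) ++ (a ++ d) ∈ SL ι := by
      have h4 := hmem
      rw [← hMac, DFA.mem_accepts] at h4 ⊢
      rw [DFA.eval, DFA.evalFrom_of_append] at h4 ⊢
      rw [DFA.eval] at h1 h3
      rw [DFA.evalFrom_of_append, h1, h3]
      exact h4
    have hl := congrArg List.length habc
    rw [List.length_replicate, List.length_append, List.length_append] at hl
    have hac : a ++ d = List.replicate (n - b.length) x₁ := by
      rw [List.eq_replicate_iff]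
      refine ⟨by rw [List.length_append]; omega, fun x hx => ?_⟩
      have hx' : x ∈ List.replicate n x₁ := by
        rw [habc]
        simp only [List.mem_append] at hx ⊢
        tauto
      exact (List.mem_replicate.1 hx').2
    rw [hac] at hacc
    have hbpos : 0 < b.length := List.length_pos_iff.2 hb
    have hbn : b.length ≤ n := by omega
    have hfin := hacc (x₂ :: (List.replicate (n - b.length) x₁ ++
        (x₂ :: List.replicate n x₁))) (by
      rw [isConj_iff]
      refine ⟨(ev ι (x₂ :: List.replicate (n - b.length) x₁))⁻¹, ?_⟩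
      have t1 : ev ι (x₂ :: (List.replicate (n - b.length) x₁ ++ (x₂ :: List.replicate n x₁))) =
          ev ι (x₂ :: List.replicate (n - b.length) x₁) *
            ev ι (x₂ :: List.replicate n x₁) := by
        rw [← ev_append]
        simp
      have t2 : ev ι ((x₂ :: (List.replicate n x₁ ++ [x₂])) ++
          List.replicate (n - b.length) x₁) =
          ev ι (x₂ :: List.replicate n x₁) *
            ev ι (x₂ :: List.replicate (n - b.length) x₁) := by
        rw [← ev_append]
        simp
      rw [t1, t2]
      group)
    have hlen : ((x₂ :: (List.replicate n x₁ ++ [x₂])) ++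
        List.replicate (n - b.length) x₁).length =
        (x₂ :: (List.replicate (n - b.length) x₁ ++ (x₂ :: List.replicate n x₁))).length := by
      simp
      omega
    have hlt2 : x₂ :: (List.replicate (n - b.length) x₁ ++ (x₂ :: List.replicate n x₁)) <
        (x₂ :: (List.replicate n x₁ ++ [x₂])) ++ List.replicate (n - b.length) x₁ := by
      have h6 := rep_lt' x₁ x₂ hlt (n - b.length) n (by omega) (List.replicate n x₁)
        (x₂ :: List.replicate (n - b.length) x₁)
      have h7 : (x₂ :: (List.replicate n x₁ ++ [x₂])) ++ List.replicate (n - b.length) x₁ =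
          x₂ :: (List.replicate n x₁ ++ (x₂ :: List.replicate (n - b.length) x₁)) := by simp
      rw [h7]
      exact List.cons_lt_cons_iff.2 (Or.inr ⟨rfl, h6⟩)
    rcases hfin with h5 | ⟨_, h5 | h5⟩
    · omega
    · rw [← h5] at hlt2
      exact lt_irrefl _ hlt2
    · exact lt_irrefl _ (lt_trans h5 hlt2)

/-- There are homomorphisms `lam`, `gam` from `F(Z)` to the integers and images `u`, `v` of letters
with `lam u = lam v = M > 0`, `gam u = 0 < c = gam v`, and the image of every letter has `lam < M`, or
has `lam = M` and is equal to `u` or to `v` or has `gam > c`. -/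
def HasEdge (ι : α → G) (f : G →* FreeGroup Z) : Prop :=
  ∃ (lam gam : FreeGroup Z →* Multiplicative ℤ) (u v : FreeGroup Z) (M c : ℤ),
    0 < M ∧ 0 < c ∧ toAdd (lam u) = M ∧ toAdd (lam v) = M ∧ toAdd (gam u) = 0 ∧
    toAdd (gam v) = c ∧ (∃ x, f (ι x) = u) ∧ (∃ x, f (ι x) = v) ∧
    ∀ x, toAdd (lam (f (ι x))) < M ∨ (toAdd (lam (f (ι x))) = M ∧
      (f (ι x) = u ∨ f (ι x) = v ∨ c < toAdd (gam (f (ι x)))))

/-- `ι(α)` is closed under inversion and generates `G`, `f` is surjective, `Z` has at least two
elements and different elements of `f(ι(α))` have different images in the abelianization of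
`F(Z)`. -/
def Separated (ι : α → G) (f : G →* FreeGroup Z) : Prop :=
  (∀ a, ∃ b, ι b = (ι a)⁻¹) ∧ Subgroup.closure (Set.range ι) = ⊤ ∧ Function.Surjective f ∧
    (∃ z w : Z, z ≠ w) ∧
    ∀ x y, Abelianization.of (f (ι x)) = Abelianization.of (f (ι y)) → f (ι x) = f (ι y)

/-- **Main theorem.** Let `ι(α)` be a finite subset of the group `G`, with any total order, and
`f : G → F(Z)` a homomorphism to a free group which has an edge, or is `Separated`. Then `SL` is
not regular. -/
theorem result [LinearOrder α] [Fintype α] (ι : α → G) (f : G →* FreeGroup Z)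
    (hf : HasEdge ι f ∨ Separated ι f) : ¬ (SL ι).IsRegular := by
  have h : HasEdge ι f → ¬ (SL ι).IsRegular := by
    rintro ⟨lam, gam, u, v, M, c, hM, hc, hlu, hlv, hgu, hgv, hu, hv, hf⟩
    exact edge ι f lam gam u v M c hM hc hlu hlv hgu hgv hu hv hf
  rcases hf with hf | ⟨h1, h2, h3, h4, h5⟩
  · exact h hf
  · exact h (Pool.Agent.H49.FQ.edge_of_generates ι f h1 h2 h3 h4 h5)

end Pool.Agent.Results.MP_d3f668_al.EdgeQuotients
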