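import Pool.Agent.H73.D3.Rf
import Pool.Agent.H73.D3.Coc
import Pool.Agent.H73.D3.Gd
import Pool.Agent.H73.D3.Co
import Pool.Agent.H73.D3.Tr
import Pool.Agent.H73.D3.Tv
import Pool.Agent.H73.D3.Rk

/-!
# Large conjugacy separable groups: the spherical conjugacy language is never regular

Let `G` be a conjugacy separable group with a finite index subgroup `H` that maps onto the free
group `F` of rank two, let `X` be ANY finite inverse-closed generating set and fix ANY total
order on it. Then `SL(G, X)` is not regular.

Proof. `G` acts on the right cosets of `H` with a cocycle in `F` (`Tv`). A finite quotient `P` of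
`F` in which the cocycle values of short closed words stay non-trivial (`Rf`) gives a finite graph
`V = (H \ G) x P`, with a class (number of signed traversals of the edges of the cover
of the rose) for every closed word. The closed classes span more than `|P|` dimensions (`Rk`),
closed words with non-zero class are long, so a linear functional with the property that closed
words have value at most their length, and as many tight closed words as possible (`Lp`), has a
vertex with two independent tight closed words (`Gd`). Tight closed words have minimal length in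
their conjugacy class. Take the lexicographically least infinite tight path `p z z z ...`
starting at such vertices (`Gr`). The shortlex representative of a tight word that begins with
`p z^n` begins with `p z^n`. Pumping `z` in the automaton and separating the finitely many
non-conjugate pairs of words of a fixed length in finite quotients gives elements `X`, `W`
with independent classes and `X^n W X^(b+1) W ~ X^(n+1) W X^b W`, `n > b` (`Co`). This contradicts
a trace computation for an induced representation over `Z[t]` whose specialisation at `t = 0` is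
trivial: the difference of the traces is `t^4` times a sum of squares (`Tr`).
-/

set_option autoImplicit false

namespace Pool.Agent.Results.MP_d3f668_al.LargeConjSep

open Pool.Agent.H73.D3 Polynomial

/-- **Theorem.** Let `G` be a conjugacy separable group with a finite index subgroup that maps
onto the free group of rank two. Then for every finite inverse-closed generating set (here: the
image of a finite alphabet) and every total order of the alphabet the spherical conjugacy
language is not regular. -/
theorem result (G α : Type*) [Group G] [Fintype α] [LinearOrder α] (ι : α → G)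
    (hsep : ConjSeparable G)
    (hlarge : ∃ (H : Subgroup G) (φ : H →* FreeGroup (Fin 2)),
      H.FiniteIndex ∧ Function.Surjective φ)
    (hinv : ∀ a : α, ∃ b : α, ι b = (ι a)⁻¹)
    (hgen : Subgroup.closure (Set.range ι) = ⊤) :
    ¬ (SL ι).IsRegular := by
  classical
  intro hreg
  obtain ⟨H, φ, hH, hφ⟩ := hlarge
  obtain ⟨V0, _, act0, c0, v0, h1, hmul, hc0, hsurj⟩ := coset_data.{_, _, 0} H hH φ hφ
  -- every element is the value of a word
  choose b hb using hinv
  have hrev : ∀ u : List α, ev ι (u.map b).reverse = (ev ι u)⁻¹ := by
    intro u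
    induction u with
    | nil => simp [ev]
    | cons a u ih =>
      rw [List.map_cons, List.reverse_cons, ev_append, ih, ev_cons, ev_cons, ev_nil, mul_one, hb,
        mul_inv_rev]
  have hword : ∀ g : G, ∃ w : List α, ev ι w = g := by
    intro g
    have hg : g ∈ Subgroup.closure (Set.range ι) := by rw [hgen]; trivial
    induction hg using Subgroup.closure_induction with
    | mem x hx =>
      obtain ⟨a, rfl⟩ := hx
      exact ⟨[a], by simp [ev]⟩
    | one => exact ⟨[], rfl⟩
    | mul x y _ _ hx hy =>
      obtain ⟨u, rfl⟩ := hx
      obtain ⟨v, rfl⟩ := hy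
      exact ⟨u ++ v, ev_append ι u v⟩
    | inv x _ hx =>
      obtain ⟨u, rfl⟩ := hx
      exact ⟨(u.map b).reverse, hrev u⟩
  set R : ℕ := Fintype.card V0 with hR
  have hR0 : 0 < R := Fintype.card_pos_iff.2 ⟨v0⟩
  -- the finite quotient
  set T0 : Set (FreeGroup (Fin 2)) := {t | t ≠ 1 ∧ ∃ (v : V0) (w : List α), w.length ≤ R ∧
    t = c0 v (ev ι w)} with hT0
  have hT0fin : T0.Finite := by
    have hf : ((Set.univ : Set V0) ×ˢ {w : List α | w.length ≤ R}).Finite :=
      Set.finite_univ.prod (List.finite_length_le α R)
    refine (hf.image (fun x => c0 x.1 (ev ι x.2))).subset ?_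
    rintro t ⟨-, v, w, hw, rfl⟩
    exact ⟨(v, w), ⟨Set.mem_univ _, hw⟩, rfl⟩
  obtain ⟨P, _, _, q, hq, hqT⟩ := rf_free T0 hT0fin (fun t ht => ht.1)
  have : Fintype P := Fintype.ofFinite P
  -- the cocycles
  obtain ⟨B', hB', hBof'⟩ := exists_coc (Γ := Multiplicative (P × Fin 2 → ℤ)) q
    (fun p i => Multiplicative.ofAdd (Pi.single (p, i) 1))
  set B : P → FreeGroup (Fin 2) → (P × Fin 2 → ℤ) := fun p w => (B' p w).toAdd with hBdef
  have hB : ∀ p w w', B p (w * w') = B p w + B (p * q w) w' := by
    intro p w w'
    simp only [hBdef, hB', toAdd_mul]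
  have hBof : ∀ p i, B p (FreeGroup.of i) = Pi.single (p, i) 1 := by
    intro p i
    simp only [hBdef, hBof', toAdd_ofAdd]
  have hB1 : ∀ p, B p 1 = 0 := by
    intro p
    have h := hB p 1 1
    rw [mul_one, map_one, mul_one] at h
    simpa using h
  let S : Sys G (V0 × P) (P × Fin 2) :=
    { act := fun x g => (act0 x.1 g, x.2 * q (c0 x.1 g))
      act_one := by
        rintro ⟨v, p⟩
        have h2 : c0 v 1 = 1 := by
          have h := hc0 v 1 1
          rw [mul_one, h1] at h
          simpa using h
        simp [h1, h2]
      act_mul := by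
        rintro ⟨v, p⟩ g h
        simp [hmul, hc0, mul_assoc]
      cl := fun x g => B x.2 (c0 x.1 g)
      cl_mul := by
        rintro ⟨v, p⟩ g h
        simp only [hc0, hB] }
  obtain ⟨f, hN, hG⟩ := exists_good S ι hword (fun a => ⟨b a, hb a⟩) R hR0
    (by
      rintro ⟨v, p⟩ w hw hact
      have ha : (act0 v (ev ι w), p * q (c0 v (ev ι w))) = (v, p) := hact
      have ha1 : p * q (c0 v (ev ι w)) = p := congrArg Prod.snd ha
      have ha2 : q (c0 v (ev ι w)) = 1 := by simpa using ha1
      have ha3 : c0 v (ev ι w) = 1 := by
        by_contra hne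
        exact hqT _ ⟨hne, v, w, hw.le, rfl⟩ ha2
      change B p (c0 v (ev ι w)) = 0
      rw [ha3, hB1])
    (by
      intro T hT
      have hcard : T.card ≤ Fintype.card P := by
        rw [Fintype.card_prod, mul_comm (Fintype.card V0)] at hT
        exact Nat.le_of_mul_le_mul_right hT hR0
      obtain ⟨u, hu, p, w, hqw, hne⟩ := rank_cover q hq B hB hBof T hcard
      obtain ⟨g, hg1, hg2⟩ := hsurj w
      refine ⟨u, hu, (v0, p), g, ?_, ?_⟩
      · change (act0 v0 g, p * q (c0 v0 g)) = (v0, p)
        rw [hg1, hg2, hqw, mul_one]
      · change pr u (B p (c0 v0 g)) ≠ 0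
        rw [hg2]
        exact hne)
  obtain ⟨x0, U, W, n, k, hk, hU, hW, ⟨e₁, e₂, hind⟩, hconj⟩ := core_large hsep S ι f hN hG hreg
  have hne : e₁ ≠ e₂ := by
    rintro rfl
    exact hind (sub_self _)
  obtain ⟨D, hD, hDof⟩ := exists_coc (Γ := Matrix.SpecialLinearGroup (Fin 2) ℤ[X]) q
    (fun p i => (if (p, i) = e₁ then uA 1 else 1) * (if (p, i) = e₂ then uB 1 else 1))
  apply hind
  exact trace_large S e₁ e₂ (fun x g => D x.2 (c0 x.1 g))
    (by
      rintro ⟨v, p⟩ g h
      change D p (c0 v (g * h)) = D p (c0 v g) * D (p * q (c0 v g)) (c0 (act0 v g) h)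
      rw [hc0, hD])
    (by
      rintro ⟨v, p⟩ g
      exact shape_coc q e₁ e₂ hne D hD hDof B hB hBof (c0 v g) p)
    U W hU hW n k hk hconj x0

end Pool.Agent.Results.MP_d3f668_al.LargeConjSep
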