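import Mathlib

/-!
# Regular spherical conjugacy languages: polynomially many classes or a free straight monoid
(MP_d3f668_al)

Let `SL(G,X)` be accepted by an automaton with `N` states. Then either for every `n` at most
`((n+1)(|X|+1))^N` conjugacy classes have representatives of length `≤ n`, or there are `t` in `G`
and two different words `u`, `v` of the same length such that all nonempty products of `u`s and
`v`s are straight words and the elements `t * w`, `w` a product of `u`s and `v`s, are pairwise not
conjugate.
-/

set_option autoImplicit false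

namespace Pool.Agent.Results.MP_d3f668_al.ManyClasses

variable {G α : Type} [Group G]

/-- The element of `G` represented by the word `w` over the alphabet `α` (letters `ι a`). -/
def ev (ι : α → G) (w : List α) : G := (w.map ι).prod

/-- The spherical conjugacy language `SL(G,X)`: the words which are shortlex least among all words
representing elements of the same conjugacy class. -/
def SL [LinearOrder α] (ι : α → G) : Language α :=
  {w : List α | ∀ v : List α, IsConj (ev ι v) (ev ι w) →
    (w.length < v.length ∨ (w.length = v.length ∧ (w = v ∨ w < v)))}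

/-- `y` is a nonempty word and for every `n` no word representing a conjugate of `y ^ n` is shorter
than `n * |y|`. -/
def Straight (ι : α → G) (y : List α) : Prop :=
  y ≠ [] ∧ ∀ (n : ℕ) (v : List α), IsConj (ev ι v) (ev ι y ^ n) → n * y.length ≤ v.length

/-- `X = ι(α)` is an inverse-closed generating set of `G` (with distinct letters). -/
def GeneratingSet (ι : α → G) : Prop :=
  Function.Injective ι ∧ (∀ a : α, ∃ b : α, ι b = (ι a)⁻¹) ∧
    Subgroup.closure (Set.range ι) = ⊤

lemma ev_nil (ι : α → G) : ev ι [] = 1 := rfl

lemma ev_append (ι : α → G) (u v : List α) : ev ι (u ++ v) = ev ι u * ev ι v := by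
  simp [ev]

lemma ev_cons (ι : α → G) (a : α) (v : List α) : ev ι (a :: v) = ι a * ev ι v := by
  simp [ev]

/-- the word `y ^ k` -/
def pw (y : List α) (k : ℕ) : List α := (List.replicate k y).flatten

lemma pw_zero (y : List α) : pw y 0 = [] := rfl

lemma pw_succ (y : List α) (k : ℕ) : pw y (k + 1) = y ++ pw y k := by
  simp [pw, List.replicate_succ]

lemma ev_pw (ι : α → G) (y : List α) (k : ℕ) : ev ι (pw y k) = ev ι y ^ k := by
  induction k with
  | zero => simp [pw_zero, ev_nil]
  | succ k ih => rw [pw_succ, ev_append, ih, pow_succ']

lemma length_pw (y : List α) (k : ℕ) : (pw y k).length = k * y.length := by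
  induction k with
  | zero => simp [pw_zero]
  | succ k ih => rw [pw_succ, List.length_append, ih]; ring

/-- every element is represented by a word -/
lemma exists_word (ι : α → G) (h : GeneratingSet ι) (g : G) : ∃ w : List α, ev ι w = g := by
  obtain ⟨-, hinv, hgen⟩ := h
  have hinvw : ∀ w : List α, ∃ w' : List α, ev ι w' = (ev ι w)⁻¹ := by
    intro w
    induction w with
    | nil => exact ⟨[], by simp [ev_nil]⟩
    | cons a w ih =>
      obtain ⟨w', hw'⟩ := ih
      obtain ⟨b, hb⟩ := hinv a
      refine ⟨w' ++ [b], ?_⟩
      rw [ev_append, ev_cons, ev_nil, mul_one, hw', hb, ev_cons, mul_inv_rev]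
  have hg : g ∈ Subgroup.closure (Set.range ι) := by rw [hgen]; trivial
  induction hg using Subgroup.closure_induction with
  | mem x hx =>
    obtain ⟨a, rfl⟩ := hx
    exact ⟨[a], by simp [ev]⟩
  | one => exact ⟨[], rfl⟩
  | mul x y _ _ hx hy =>
    obtain ⟨u, rfl⟩ := hx
    obtain ⟨v, rfl⟩ := hy
    exact ⟨u ++ v, ev_append ι u v⟩
  | inv x _ hx =>
    obtain ⟨u, rfl⟩ := hx
    exact hinvw u

variable [LinearOrder α]

/-- subwords of words of `SL` are geodesic -/
lemma geodesic (ι : α → G) (p q r : List α) (h : p ++ q ++ r ∈ SL ι) (v : List α)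
    (hv : ev ι v = ev ι q) : q.length ≤ v.length := by
  have h1 := h (p ++ v ++ r) (by rw [ev_append, ev_append, ev_append, ev_append, hv])
  simp only [List.length_append] at h1
  omega

/-- a word all of whose powers occur inside words of `SL` is straight -/
lemma straight_of_powers (ι : α → G) (h : GeneratingSet ι) (p y r : List α) (hy : y ≠ [])
    (hSL : ∀ k : ℕ, p ++ pw y k ++ r ∈ SL ι) : Straight ι y := by
  refine ⟨hy, fun n v hv => ?_⟩
  by_contra hcon
  push Not at hcon
  obtain ⟨c, hc⟩ := isConj_iff.1 hv
  obtain ⟨wc, hwc⟩ := exists_word ι h c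
  obtain ⟨wd, hwd⟩ := exists_word ι h c⁻¹
  have key : ∀ k : ℕ, k * (n * y.length) ≤ wc.length + k * v.length + wd.length := by
    intro k
    have h1 := geodesic ι p (pw y (n * k)) r (hSL (n * k)) (wc ++ pw v k ++ wd) (by
      rw [ev_append, ev_append, ev_pw, ev_pw, hwc, hwd, pow_mul, ← hc, conj_pow])
    rw [length_pw, List.length_append, List.length_append, length_pw] at h1
    calc k * (n * y.length) = n * k * y.length := by ring
      _ ≤ _ := h1
  have h2 := key (wc.length + wd.length + 1)
  have h3 : (wc.length + wd.length + 1) * (v.length + 1) ≤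
      (wc.length + wd.length + 1) * (n * y.length) := Nat.mul_le_mul_left _ hcon
  nlinarith

/-- every conjugacy class has a word in `SL` -/
lemma exists_mem_SL [Finite α] (ι : α → G) (h : GeneratingSet ι) (g : G) :
    ∃ w ∈ SL ι, IsConj (ev ι w) g := by
  classical
  have hex : ∃ n : ℕ, ∃ w : List α, w.length = n ∧ IsConj (ev ι w) g := by
    obtain ⟨w, hw⟩ := exists_word ι h g
    exact ⟨w.length, w, rfl, by rw [hw]⟩
  have hmin := Nat.find_spec hex
  set n := Nat.find hex with hn
  have hfin : {w : List α | w.length = n ∧ IsConj (ev ι w) g}.Finite :=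
    (List.finite_length_eq α n).subset fun w hw => hw.1
  obtain ⟨w, hw, hwm⟩ := Set.exists_min_image {w : List α | w.length = n ∧ IsConj (ev ι w) g}
    (fun w => w) hfin hmin
  refine ⟨w, ?_, hw.2⟩
  intro v hv
  have hvg : IsConj (ev ι v) g := hv.trans hw.2
  have h1 : n ≤ v.length := Nat.find_min' hex ⟨v, rfl, hvg⟩
  rcases Nat.lt_or_ge n v.length with h2 | h2
  · left
    rw [hw.1]
    exact h2
  · right
    have h3 : v.length = n := le_antisymm h2 h1
    refine ⟨by rw [hw.1, h3], ?_⟩
    exact eq_or_lt_of_le (hwm v ⟨h3, hvg⟩)

/-- words of `SL` representing conjugate elements are equal -/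
lemma SL_unique (ι : α → G) (u v : List α) (hu : u ∈ SL ι) (hv : v ∈ SL ι)
    (h : IsConj (ev ι u) (ev ι v)) : u = v := by
  have h1 := hu v h.symm
  have h2 := hv u h
  rcases h1 with h1 | ⟨_, h1⟩
  · rcases h2 with h2 | ⟨h2, _⟩ <;> omega
  · rcases h2 with h2 | ⟨_, h2⟩
    · omega
    · rcases h1 with h1 | h1
      · exact h1
      · rcases h2 with h2 | h2
        · exact h2.symm
        · exact absurd (lt_trans h1 h2) (lt_irrefl _)


/-- the product of the words `u` (for `true`) and `v` (for `false`) coded by `l` -/
def uv (u v : List α) (l : List Bool) : List α := (l.map fun b => if b then u else v).flatten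

omit [LinearOrder α] in
lemma uv_cons (u v : List α) (b : Bool) (l : List Bool) :
    uv u v (b :: l) = (if b then u else v) ++ uv u v l := by
  simp [uv]

omit [LinearOrder α] in
lemma uv_append (u v : List α) (l l' : List Bool) : uv u v (l ++ l') = uv u v l ++ uv u v l' := by
  simp [uv]

omit [LinearOrder α] in
lemma length_uv (u v : List α) (huv : u.length = v.length) (l : List Bool) :
    (uv u v l).length = l.length * u.length := by
  induction l with
  | nil => simp [uv]
  | cons b l ih =>
    rw [uv_cons, List.length_append, ih, List.length_cons]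
    have : (if b then u else v).length = u.length := by cases b <;> simp [huv]
    rw [this]
    ring

omit [LinearOrder α] in
lemma uv_inj (u v : List α) (huv : u.length = v.length) (hne : u ≠ v) (l : List Bool) :
    ∀ l' : List Bool, uv u v l = uv u v l' → l = l' := by
  have hpos : 0 < u.length := by
    rcases Nat.eq_zero_or_pos u.length with h0 | h0
    · exfalso
      have hu0 : u = [] := List.length_eq_zero_iff.1 h0
      have hv0 : v = [] := List.length_eq_zero_iff.1 (by omega)
      exact hne (by rw [hu0, hv0])
    · exact h0
  induction l with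
  | nil =>
    intro l' h
    have h1 := congrArg List.length h
    rw [length_uv u v huv, length_uv u v huv, List.length_nil, Nat.zero_mul] at h1
    have h2 : l'.length = 0 := by
      rcases Nat.mul_eq_zero.1 h1.symm with h3 | h3
      · exact h3
      · omega
    exact (List.length_eq_zero_iff.1 h2).symm
  | cons b l ih =>
    intro l' h
    cases l' with
    | nil =>
      exfalso
      have h1 := congrArg List.length h
      rw [length_uv u v huv, length_uv u v huv, List.length_nil, Nat.zero_mul,
        List.length_cons] at h1
      rcases Nat.mul_eq_zero.1 h1 with h3 | h3 <;> omega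
    | cons b' l' =>
      rw [uv_cons, uv_cons] at h
      have hl : (if b then u else v).length = (if b' then u else v).length := by
        cases b <;> cases b' <;> simp [huv]
      obtain ⟨h1, h2⟩ := List.append_inj h hl
      have hb : b = b' := by
        cases b <;> cases b' <;> simp at h1 ⊢
        · exact hne h1.symm
        · exact hne h1
      rw [hb, ih l' h2]

section Automata

variable {σ : Type} (M : DFA α σ)

/-- all states visited from `q` while reading `w` lie in `S` -/
def Inside (S : Finset σ) (q : σ) (w : List α) : Prop :=
  ∀ u v : List α, w = u ++ v → M.evalFrom q u ∈ S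

omit [LinearOrder α] in
/-- the longest prefix which is a loop -/
lemma exists_loop_prefix (q : σ) (w : List α) : ∃ u v : List α, w = u ++ v ∧
    M.evalFrom q u = q ∧ ∀ u' v' : List α, v = u' ++ v' → M.evalFrom q u' = q → u' = [] := by
  induction hn : w.length using Nat.strong_induction_on generalizing w with
  | _ n ih =>
    by_cases h : ∃ u' v' : List α, w = u' ++ v' ∧ M.evalFrom q u' = q ∧ u' ≠ []
    · obtain ⟨u', v', hw, hq, hne⟩ := h
      have hlt : v'.length < n := by
        rw [← hn, hw, List.length_append]
        have := List.length_pos_iff.2 hne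
        omega
      obtain ⟨u, v, hv, hu, hmax⟩ := ih v'.length hlt v' rfl
      refine ⟨u' ++ u, v, by rw [hw, hv, List.append_assoc], ?_, hmax⟩
      rw [DFA.evalFrom_of_append, hq, hu]
    · push Not at h
      exact ⟨[], w, rfl, rfl, fun u' v' h1 h2 => h u' v' h1 h2⟩

variable [Fintype α]

open Classical in
/-- words of length at most `n` read from `q` inside `S` which can be completed to acceptance -/
noncomputable def W (n : ℕ) (S : Finset σ) (q : σ) : Finset (List α) :=
  (List.finite_length_le α n).toFinset.filter fun w =>
    Inside M S q w ∧ ∃ c : List α, M.evalFrom q (w ++ c) ∈ M.accept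

omit [LinearOrder α] in
lemma mem_W (n : ℕ) (S : Finset σ) (q : σ) (w : List α) : w ∈ W M n S q ↔
    w.length ≤ n ∧ Inside M S q w ∧ ∃ c : List α, M.evalFrom q (w ++ c) ∈ M.accept := by
  classical
  simp [W]

open Classical in
omit [LinearOrder α] in
lemma card_W (n : ℕ)
    (huniq : ∀ a u v c : List α, u.length = v.length → M.evalFrom (M.eval a) u = M.eval a →
      M.evalFrom (M.eval a) v = M.eval a → M.evalFrom (M.eval a) c ∈ M.accept → u = v)
    (k : ℕ) : ∀ (S : Finset σ), S.card = k → ∀ q : σ, (∃ a : List α, M.eval a = q) →
      (W M n S q).card ≤ ((n + 1) * (Fintype.card α + 1)) ^ k := by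
  induction k with
  | zero =>
    intro S hS q _
    have : W M n S q = ∅ := by
      rw [Finset.eq_empty_iff_forall_notMem]
      intro w hw
      rw [mem_W] at hw
      have h1 := hw.2.1 [] w rfl
      rw [Finset.card_eq_zero.1 hS] at h1
      exact absurd h1 (Finset.notMem_empty _)
    rw [this]
    simp
  | succ k ih =>
    intro S hS q hq
    by_cases hqS : q ∈ S
    swap
    · have : W M n S q = ∅ := by
        rw [Finset.eq_empty_iff_forall_notMem]
        intro w hw
        rw [mem_W] at hw
        exact hqS (hw.2.1 [] w rfl)
      rw [this]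
      simp
    by_cases hco : ∃ c : List α, M.evalFrom q c ∈ M.accept
    swap
    · have : W M n S q = ∅ := by
        rw [Finset.eq_empty_iff_forall_notMem]
        intro w hw
        rw [mem_W] at hw
        obtain ⟨c, hc⟩ := hw.2.2
        exact hco ⟨w ++ c, hc⟩
      rw [this]
      simp
    obtain ⟨c0, hc0⟩ := hco
    obtain ⟨a0, ha0⟩ := hq
    set L : Finset (List α) := (List.finite_length_le α n).toFinset.filter
      fun u => M.evalFrom q u = q with hL
    have hLmem : ∀ u, u ∈ L ↔ u.length ≤ n ∧ M.evalFrom q u = q := by
      intro u
      simp [hL]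
    have hLcard : L.card ≤ n + 1 := by
      have h1 : L.card ≤ (Finset.range (n + 1)).card := by
        refine Finset.card_le_card_of_injOn (fun u => u.length) ?_ ?_
        · intro u hu
          have := (hLmem u).1 hu
          simp only [Finset.coe_range, Set.mem_Iio]
          omega
        · intro u hu v hv huv
          have h1 := (hLmem u).1 hu
          have h2 := (hLmem v).1 hv
          exact huniq a0 u v c0 huv (by rw [ha0]; exact h1.2) (by rw [ha0]; exact h2.2)
            (by rw [ha0]; exact hc0)
      rwa [Finset.card_range] at h1
    set R : Finset (List α) := {[]} ∪ Finset.univ.biUnion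
      (fun a : α => (W M n (S.erase q) (M.step q a)).image (List.cons a)) with hR
    have hRcard : R.card ≤ (Fintype.card α + 1) * ((n + 1) * (Fintype.card α + 1)) ^ k := by
      have h1 : R.card ≤ 1 + ∑ a : α, ((n + 1) * (Fintype.card α + 1)) ^ k := by
        refine (Finset.card_union_le _ _).trans (Nat.add_le_add (by simp) ?_)
        refine Finset.card_biUnion_le.trans (Finset.sum_le_sum fun a _ => ?_)
        refine Finset.card_image_le.trans (ih (S.erase q) ?_ (M.step q a) ⟨a0 ++ [a], ?_⟩)
        · rw [Finset.card_erase_of_mem hqS, hS]
          rfl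
        · rw [DFA.eval_append_singleton, ha0]
      rw [Finset.sum_const, Finset.card_univ, smul_eq_mul] at h1
      have h2 : 1 ≤ ((n + 1) * (Fintype.card α + 1)) ^ k :=
        Nat.one_le_pow _ _ (Nat.mul_pos (Nat.succ_pos _) (Nat.succ_pos _))
      calc R.card ≤ _ := h1
        _ ≤ ((n + 1) * (Fintype.card α + 1)) ^ k +
            Fintype.card α * ((n + 1) * (Fintype.card α + 1)) ^ k := Nat.add_le_add_right h2 _
        _ = _ := by ring
    have hsub : W M n S q ⊆ (L ×ˢ R).image fun p => p.1 ++ p.2 := by
      intro w hw
      rw [mem_W] at hw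
      obtain ⟨hwn, hin, c, hc⟩ := hw
      obtain ⟨u, v, hwuv, hu, hmax⟩ := exists_loop_prefix M q w
      have hlen : u.length + v.length ≤ n := by
        rw [← List.length_append, ← hwuv]
        exact hwn
      rw [Finset.mem_image]
      refine ⟨(u, v), ?_, hwuv.symm⟩
      rw [Finset.mem_product]
      refine ⟨(hLmem u).2 ⟨by omega, hu⟩, ?_⟩
      show v ∈ R
      rw [hR, Finset.mem_union]
      cases v with
      | nil => left; simp
      | cons a r =>
        right
        rw [Finset.mem_biUnion]
        refine ⟨a, Finset.mem_univ a, Finset.mem_image.2 ⟨r, ?_, rfl⟩⟩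
        rw [mem_W]
        refine ⟨by rw [List.length_cons] at hlen; omega, ?_, c, ?_⟩
        · intro u'' v'' hr
          have e1 : M.evalFrom (M.step q a) u'' = M.evalFrom q (a :: u'') := by
            rw [DFA.evalFrom_cons]
          rw [e1, Finset.mem_erase]
          constructor
          · intro hq'
            have := hmax (a :: u'') v'' (by rw [hr]; rfl) hq'
            exact List.cons_ne_nil _ _ this
          · have h1 := hin (u ++ a :: u'') v'' (by
              rw [hwuv, hr]; simp)
            rwa [DFA.evalFrom_of_append, hu] at h1
        · have h1 : M.evalFrom q (w ++ c) = M.evalFrom (M.step q a) (r ++ c) := by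
            rw [hwuv, List.append_assoc, DFA.evalFrom_of_append, hu, List.cons_append,
              DFA.evalFrom_cons]
          rw [← h1]
          exact hc
    calc (W M n S q).card ≤ ((L ×ˢ R).image fun p => p.1 ++ p.2).card :=
          Finset.card_le_card hsub
      _ ≤ (L ×ˢ R).card := Finset.card_image_le
      _ = L.card * R.card := Finset.card_product _ _
      _ ≤ (n + 1) * ((Fintype.card α + 1) * ((n + 1) * (Fintype.card α + 1)) ^ k) :=
          Nat.mul_le_mul hLcard hRcard
      _ = ((n + 1) * (Fintype.card α + 1)) ^ (k + 1) := by ring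

end Automata

/-- **Main theorem.** Let `SL(G,X)` be accepted by a DFA with `N` states, `X = ι(α)`. Either for
every `n` at most `((n+1)(|X|+1))^N` conjugacy classes contain elements represented by words of
length `≤ n`, or there are `t` in `G` and words `u ≠ v` of the same length such that every nonempty
product of `u`s and `v`s is straight and the elements `t * w`, `w` such a product, are pairwise not
conjugate. -/
theorem result [Fintype α] (ι : α → G) (h : GeneratingSet ι) (σ : Type) [Fintype σ]
    (M : DFA α σ) (hM : M.accepts = SL ι) :
    (∀ n : ℕ, {c : ConjClasses G | ∃ w : List α, w.length ≤ n ∧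
        ConjClasses.mk (ev ι w) = c}.Finite ∧
      {c : ConjClasses G | ∃ w : List α, w.length ≤ n ∧ ConjClasses.mk (ev ι w) = c}.ncard ≤
        ((n + 1) * (Fintype.card α + 1)) ^ Fintype.card σ) ∨
    ∃ (t : G) (u v : List α), u ≠ v ∧ u.length = v.length ∧
      (∀ l : List Bool, l ≠ [] → Straight ι (uv u v l)) ∧
      ∀ l l' : List Bool, IsConj (t * ev ι (uv u v l)) (t * ev ι (uv u v l')) → l = l' := by
  classical
  by_cases huniq : ∀ a u v c : List α, u.length = v.length →
      M.evalFrom (M.eval a) u = M.eval a → M.evalFrom (M.eval a) v = M.eval a →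
      M.evalFrom (M.eval a) c ∈ M.accept → u = v
  · left
    intro n
    have hcard := card_W M n huniq (Fintype.card σ) Finset.univ rfl M.start ⟨[], rfl⟩
    have hsub : {c : ConjClasses G | ∃ w : List α, w.length ≤ n ∧ ConjClasses.mk (ev ι w) = c} ⊆
        ((W M n Finset.univ M.start).image fun w => ConjClasses.mk (ev ι w) :
          Finset (ConjClasses G)) := by
      rintro c ⟨w, hw, rfl⟩
      obtain ⟨w', hw', hconj⟩ := exists_mem_SL ι h (ev ι w)
      have hle : w'.length ≤ w.length := by
        have := hw' w hconj.symm
        omega
      rw [Finset.coe_image]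
      refine ⟨w', ?_, ConjClasses.mk_eq_mk_iff_isConj.2 hconj⟩
      rw [Finset.mem_coe, mem_W]
      refine ⟨hle.trans hw, fun _ _ _ => Finset.mem_univ _, [], ?_⟩
      rw [← hM, DFA.mem_accepts] at hw'
      rw [List.append_nil]
      exact hw'
    refine ⟨(Finset.finite_toSet _).subset hsub, ?_⟩
    refine (Set.ncard_le_ncard hsub (Finset.finite_toSet _)).trans ?_
    rw [Set.ncard_coe_finset]
    exact Finset.card_image_le.trans hcard
  · right
    push Not at huniq
    obtain ⟨a, u, v, c, hlen, hu, hv, hc, hne⟩ := huniq
    have hloop : ∀ l : List Bool, M.evalFrom (M.eval a) (uv u v l) = M.eval a := by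
      intro l
      induction l with
      | nil => rfl
      | cons b l ih =>
        rw [uv_cons, DFA.evalFrom_of_append]
        cases b
        · simp only [Bool.false_eq_true, if_false]
          rw [hv, ih]
        · simp only [if_true]
          rw [hu, ih]
    have hmem : ∀ l : List Bool, a ++ uv u v l ++ c ∈ SL ι := by
      intro l
      rw [← hM, DFA.mem_accepts]
      have e : M.eval (a ++ uv u v l ++ c) =
          M.evalFrom (M.evalFrom (M.eval a) (uv u v l)) c := by
        rw [DFA.eval, DFA.evalFrom_of_append, DFA.evalFrom_of_append]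
      rw [e, hloop]
      exact hc
    have hpos : 0 < u.length := by
      rcases Nat.eq_zero_or_pos u.length with h0 | h0
      · exfalso
        have hu0 : u = [] := List.length_eq_zero_iff.1 h0
        have hv0 : v = [] := List.length_eq_zero_iff.1 (by omega)
        exact hne (by rw [hu0, hv0])
      · exact h0
    refine ⟨ev ι c * ev ι a, u, v, hne, hlen, ?_, ?_⟩
    · intro l hl
      refine straight_of_powers ι h a (uv u v l) c ?_ ?_
      · intro h0
        have h1 := congrArg List.length h0
        rw [length_uv u v hlen, List.length_nil] at h1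
        rcases Nat.mul_eq_zero.1 h1 with h2 | h2
        · exact hl (List.length_eq_zero_iff.1 h2)
        · omega
      · intro k
        have e : pw (uv u v l) k = uv u v (List.replicate k l).flatten := by
          induction k with
          | zero => rfl
          | succ k ih => rw [pw_succ, ih, List.replicate_succ, List.flatten_cons, uv_append]
        rw [e]
        exact hmem _
    · intro l l' hconj
      have hc1 : ∀ l : List Bool, IsConj (ev ι c * ev ι a * ev ι (uv u v l))
          (ev ι (a ++ uv u v l ++ c)) := by
        intro l
        rw [isConj_iff]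
        refine ⟨(ev ι c)⁻¹, ?_⟩
        rw [ev_append, ev_append]
        group
      have h1 : IsConj (ev ι (a ++ uv u v l ++ c)) (ev ι (a ++ uv u v l' ++ c)) :=
        ((hc1 l).symm.trans hconj).trans (hc1 l')
      have h2 := SL_unique ι _ _ (hmem l) (hmem l') h1
      have h3 : uv u v l = uv u v l' := List.append_cancel_left (List.append_cancel_right h2)
      exact uv_inj u v hlen hne l l' h3

end Pool.Agent.Results.MP_d3f668_al.ManyClasses
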