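import Mathlib

/-!
# Straight words in regular spherical conjugacy languages (MP_d3f668_al)

If the shortlex conjugacy language `SL(G,X)` is accepted by an automaton with `N` states, then any
`N` consecutive letters of any of its words contain a nonempty word `y` all of whose powers have
minimal length in their conjugacy classes. Consequently, if for a finite subset `Y` of `G` every
element `g` of `G` has a power `g ^ n` which is a product of fewer than `n` elements of `Y`, then
`SL(G,X)` is regular iff `G` has finitely many conjugacy classes.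
-/

set_option autoImplicit false

namespace Pool.Agent.Results.MP_d3f668_al.StraightWords

variable {G α : Type} [Group G]

/-- The element of `G` represented by the word `w` over the alphabet `α` (letters `ι a`). -/
def ev (ι : α → G) (w : List α) : G := (w.map ι).prod

/-- The spherical conjugacy language `SL(G,X)`: the words which are shortlex least among all words
representing elements of the same conjugacy class. -/
def SL [LinearOrder α] (ι : α → G) : Language α :=
  {w : List α | ∀ v : List α, IsConj (ev ι v) (ev ι w) →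
    (w.length < v.length ∨ (w.length = v.length ∧ (w = v ∨ w < v)))}

/-- `y` is a nonempty word and for every `n` no word representing a conjugate of `y ^ n` is shorter
than `n * |y|`. -/
def Straight (ι : α → G) (y : List α) : Prop :=
  y ≠ [] ∧ ∀ (n : ℕ) (v : List α), IsConj (ev ι v) (ev ι y ^ n) → n * y.length ≤ v.length

/-- `X = ι(α)` is an inverse-closed generating set of `G` (with distinct letters). -/
def GeneratingSet (ι : α → G) : Prop :=
  Function.Injective ι ∧ (∀ a : α, ∃ b : α, ι b = (ι a)⁻¹) ∧
    Subgroup.closure (Set.range ι) = ⊤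

lemma ev_nil (ι : α → G) : ev ι [] = 1 := rfl

lemma ev_append (ι : α → G) (u v : List α) : ev ι (u ++ v) = ev ι u * ev ι v := by
  simp [ev]

lemma ev_cons (ι : α → G) (a : α) (v : List α) : ev ι (a :: v) = ι a * ev ι v := by
  simp [ev]

/-- the word `y ^ k` -/
def pw (y : List α) (k : ℕ) : List α := (List.replicate k y).flatten

lemma pw_zero (y : List α) : pw y 0 = [] := rfl

lemma pw_succ (y : List α) (k : ℕ) : pw y (k + 1) = y ++ pw y k := by
  simp [pw, List.replicate_succ]

lemma ev_pw (ι : α → G) (y : List α) (k : ℕ) : ev ι (pw y k) = ev ι y ^ k := by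
  induction k with
  | zero => simp [pw_zero, ev_nil]
  | succ k ih => rw [pw_succ, ev_append, ih, pow_succ']

lemma length_pw (y : List α) (k : ℕ) : (pw y k).length = k * y.length := by
  induction k with
  | zero => simp [pw_zero]
  | succ k ih => rw [pw_succ, List.length_append, ih]; ring

/-- every element is represented by a word -/
lemma exists_word (ι : α → G) (h : GeneratingSet ι) (g : G) : ∃ w : List α, ev ι w = g := by
  obtain ⟨-, hinv, hgen⟩ := h
  have hinvw : ∀ w : List α, ∃ w' : List α, ev ι w' = (ev ι w)⁻¹ := by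
    intro w
    induction w with
    | nil => exact ⟨[], by simp [ev_nil]⟩
    | cons a w ih =>
      obtain ⟨w', hw'⟩ := ih
      obtain ⟨b, hb⟩ := hinv a
      refine ⟨w' ++ [b], ?_⟩
      rw [ev_append, ev_cons, ev_nil, mul_one, hw', hb, ev_cons, mul_inv_rev]
  have hg : g ∈ Subgroup.closure (Set.range ι) := by rw [hgen]; trivial
  induction hg using Subgroup.closure_induction with
  | mem x hx =>
    obtain ⟨a, rfl⟩ := hx
    exact ⟨[a], by simp [ev]⟩
  | one => exact ⟨[], rfl⟩
  | mul x y _ _ hx hy =>
    obtain ⟨u, rfl⟩ := hx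
    obtain ⟨v, rfl⟩ := hy
    exact ⟨u ++ v, ev_append ι u v⟩
  | inv x _ hx =>
    obtain ⟨u, rfl⟩ := hx
    exact hinvw u

variable [LinearOrder α]

/-- subwords of words of `SL` are geodesic -/
lemma geodesic (ι : α → G) (p q r : List α) (h : p ++ q ++ r ∈ SL ι) (v : List α)
    (hv : ev ι v = ev ι q) : q.length ≤ v.length := by
  have h1 := h (p ++ v ++ r) (by rw [ev_append, ev_append, ev_append, ev_append, hv])
  simp only [List.length_append] at h1
  omega

/-- a word all of whose powers occur inside words of `SL` is straight -/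
lemma straight_of_powers (ι : α → G) (h : GeneratingSet ι) (p y r : List α) (hy : y ≠ [])
    (hSL : ∀ k : ℕ, p ++ pw y k ++ r ∈ SL ι) : Straight ι y := by
  refine ⟨hy, fun n v hv => ?_⟩
  by_contra hcon
  push Not at hcon
  obtain ⟨c, hc⟩ := isConj_iff.1 hv
  obtain ⟨wc, hwc⟩ := exists_word ι h c
  obtain ⟨wd, hwd⟩ := exists_word ι h c⁻¹
  have key : ∀ k : ℕ, k * (n * y.length) ≤ wc.length + k * v.length + wd.length := by
    intro k
    have h1 := geodesic ι p (pw y (n * k)) r (hSL (n * k)) (wc ++ pw v k ++ wd) (by
      rw [ev_append, ev_append, ev_pw, ev_pw, hwc, hwd, pow_mul, ← hc, conj_pow])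
    rw [length_pw, List.length_append, List.length_append, length_pw] at h1
    calc k * (n * y.length) = n * k * y.length := by ring
      _ ≤ _ := h1
  have h2 := key (wc.length + wd.length + 1)
  have h3 : (wc.length + wd.length + 1) * (v.length + 1) ≤
      (wc.length + wd.length + 1) * (n * y.length) := Nat.mul_le_mul_left _ hcon
  nlinarith

/-- the window form of the pumping lemma -/
lemma window (ι : α → G) (h : GeneratingSet ι) (σ : Type) [Fintype σ] (M : DFA α σ)
    (hM : M.accepts = SL ι) (a b c : List α) (hw : a ++ b ++ c ∈ SL ι)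
    (hb : Fintype.card σ ≤ b.length) :
    ∃ x y z : List α, b = x ++ y ++ z ∧ x.length + y.length ≤ Fintype.card σ ∧
      Straight ι y := by
  obtain ⟨q, x, y, z, hbe, hlen, hy, h1, h2, h3⟩ :=
    M.evalFrom_split (s := M.eval a) hb rfl
  refine ⟨x, y, z, hbe, hlen, ?_⟩
  refine straight_of_powers ι h (a ++ x) y (z ++ c) hy fun k => ?_
  have hq : M.evalFrom q (pw y k) = q := by
    induction k with
    | zero => rfl
    | succ k ih => rw [pw_succ, DFA.evalFrom_of_append, h2, ih]
  rw [← hM, DFA.mem_accepts] at hw ⊢
  have e1 : M.eval (a ++ b ++ c) = M.evalFrom (M.evalFrom (M.eval a) b) c := by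
    rw [DFA.eval, DFA.evalFrom_of_append, DFA.evalFrom_of_append]
  have e2 : M.eval (a ++ x ++ pw y k ++ (z ++ c)) =
      M.evalFrom (M.evalFrom (M.evalFrom (M.evalFrom (M.eval a) x) (pw y k)) z) c := by
    rw [DFA.eval, DFA.evalFrom_of_append, DFA.evalFrom_of_append, DFA.evalFrom_of_append,
      DFA.evalFrom_of_append]
  rw [e1] at hw
  rw [e2, h1, hq, h3]
  exact hw

/-- every conjugacy class has a word in `SL` -/
lemma exists_mem_SL [Finite α] (ι : α → G) (h : GeneratingSet ι) (g : G) :
    ∃ w ∈ SL ι, IsConj (ev ι w) g := by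
  classical
  have hex : ∃ n : ℕ, ∃ w : List α, w.length = n ∧ IsConj (ev ι w) g := by
    obtain ⟨w, hw⟩ := exists_word ι h g
    exact ⟨w.length, w, rfl, by rw [hw]⟩
  have hmin := Nat.find_spec hex
  set n := Nat.find hex with hn
  have hfin : {w : List α | w.length = n ∧ IsConj (ev ι w) g}.Finite :=
    (List.finite_length_eq α n).subset fun w hw => hw.1
  obtain ⟨w, hw, hwm⟩ := Set.exists_min_image {w : List α | w.length = n ∧ IsConj (ev ι w) g}
    (fun w => w) hfin hmin
  refine ⟨w, ?_, hw.2⟩
  intro v hv
  have hvg : IsConj (ev ι v) g := hv.trans hw.2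
  have h1 : n ≤ v.length := Nat.find_min' hex ⟨v, rfl, hvg⟩
  rcases Nat.lt_or_ge n v.length with h2 | h2
  · left
    rw [hw.1]
    exact h2
  · right
    have h3 : v.length = n := le_antisymm h2 h1
    refine ⟨by rw [hw.1, h3], ?_⟩
    exact eq_or_lt_of_le (hwm v ⟨h3, hvg⟩)

/-- words of `SL` representing conjugate elements are equal -/
lemma SL_unique (ι : α → G) (u v : List α) (hu : u ∈ SL ι) (hv : v ∈ SL ι)
    (h : IsConj (ev ι u) (ev ι v)) : u = v := by
  have h1 := hu v h.symm
  have h2 := hv u h
  rcases h1 with h1 | ⟨_, h1⟩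
  · rcases h2 with h2 | ⟨h2, _⟩ <;> omega
  · rcases h2 with h2 | ⟨_, h2⟩
    · omega
    · rcases h1 with h1 | h1
      · exact h1
      · rcases h2 with h2 | h2
        · exact h2.symm
        · exact absurd (lt_trans h1 h2) (lt_irrefl _)

/-- finitely many words in `SL` iff finitely many conjugacy classes -/
lemma finite_iff [Finite α] (ι : α → G) (h : GeneratingSet ι) :
    (SL ι : Set (List α)).Finite ↔ Finite (ConjClasses G) := by
  constructor
  · intro hf
    have hsub : (Set.univ : Set (ConjClasses G)) ⊆
        (fun w : List α => ConjClasses.mk (ev ι w)) '' (SL ι : Set (List α)) := by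
      intro c _
      obtain ⟨g, rfl⟩ := ConjClasses.exists_rep c
      obtain ⟨w, hw, hg⟩ := exists_mem_SL ι h g
      exact ⟨w, hw, ConjClasses.mk_eq_mk_iff_isConj.2 hg⟩
    exact Set.finite_univ_iff.1 ((hf.image _).subset hsub)
  · intro hf
    refine Set.Finite.of_finite_image (f := fun w : List α => ConjClasses.mk (ev ι w))
      (Set.toFinite _) ?_
    intro u hu v hv huv
    exact SL_unique ι u v hu hv (ConjClasses.mk_eq_mk_iff_isConj.1 huv)

/-- finite languages are regular -/
lemma regular_of_finite (L : Language α) (hL : (L : Set (List α)).Finite) : L.IsRegular := by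
  apply Language.IsRegular.of_finite_range_leftQuotient
  have hT : {y : List α | ∃ x : List α, x ++ y ∈ L}.Finite := by
    have hU : (⋃ w ∈ (L : Set (List α)), {y : List α | y ∈ w.tails}).Finite :=
      hL.biUnion fun w _ => by
        have : {y : List α | y ∈ w.tails} = (w.tails.toFinset : Set (List α)) := by
          ext y; simp
        rw [this]
        exact Finset.finite_toSet _
    refine hU.subset ?_
    rintro y ⟨x, hx⟩
    simp only [Set.mem_iUnion]
    exact ⟨x ++ y, hx, by
      show y ∈ (x ++ y).tails
      rw [List.mem_tails]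
      exact List.suffix_append x y⟩
  refine (hT.finite_subsets).subset ?_
  rintro _ ⟨x, rfl⟩
  intro y hy
  exact ⟨x, hy⟩

omit [LinearOrder α] in
/-- products of elements of a finite set have words of bounded length per factor -/
lemma exists_bound (ι : α → G) (h : GeneratingSet ι) (Y : Finset G) :
    ∃ K : ℕ, ∀ v : List G, (∀ y ∈ v, y ∈ Y) →
      ∃ w : List α, ev ι w = v.prod ∧ w.length ≤ K * v.length := by
  choose f hf using exists_word ι h
  refine ⟨Y.sup fun y => (f y).length, fun v => ?_⟩
  induction v with
  | nil => exact fun _ => ⟨[], by simp [ev_nil], by simp⟩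
  | cons y v ih =>
    intro hv
    obtain ⟨w, hw, hl⟩ := ih fun z hz => hv z (List.mem_cons_of_mem _ hz)
    refine ⟨f y ++ w, by rw [ev_append, hf, hw, List.prod_cons], ?_⟩
    have h1 : (f y).length ≤ Y.sup fun y => (f y).length :=
      Finset.le_sup (f := fun y => (f y).length) (hv y List.mem_cons_self)
    rw [List.length_append, List.length_cons, Nat.mul_succ]
    omega

/-- **Main theorem.** Let `X = ι(α)` be a finite inverse-closed generating set of the group `G`,
with any total order.
(1) If an automaton with `N` states accepts `SL(G,X)`, then any `N` consecutive letters of any word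
of `SL(G,X)` contain a straight subword.
(2) If `SL(G,X)` is regular and `G` has infinitely many conjugacy classes, there is a straight word.
(3) If for some finite subset `Y` of `G` every `g` in `G` has a power `g ^ n` which is a product of
fewer than `n` elements of `Y`, then `SL(G,X)` is regular iff `G` has only finitely many conjugacy
classes. -/
theorem result [Fintype α] (ι : α → G) (h : GeneratingSet ι) :
    (∀ (σ : Type) [Fintype σ] (M : DFA α σ), M.accepts = SL ι →
      ∀ a b c : List α, a ++ b ++ c ∈ SL ι → b.length = Fintype.card σ →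
        ∃ x y z : List α, b = x ++ y ++ z ∧ Straight ι y) ∧
    ((SL ι).IsRegular → Infinite (ConjClasses G) → ∃ y : List α, Straight ι y) ∧
    ((∃ Y : Finset G, ∀ g : G, ∃ (n : ℕ) (v : List G),
        (∀ y ∈ v, y ∈ Y) ∧ v.prod = g ^ n ∧ v.length < n) →
      ((SL ι).IsRegular ↔ Finite (ConjClasses G))) := by
  have h2 : (SL ι).IsRegular → Infinite (ConjClasses G) → ∃ y : List α, Straight ι y := by
    rintro ⟨σ, hσ, M, hM⟩ hinf
    have hnf : ¬ (SL ι : Set (List α)).Finite := by
      rw [finite_iff ι h]
      exact not_finite_iff_infinite.2 hinf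
    have hlong : ∃ w ∈ SL ι, Fintype.card σ ≤ w.length := by
      by_contra hcon
      push Not at hcon
      exact hnf ((List.finite_length_lt α (Fintype.card σ)).subset fun w hw => hcon w hw)
    obtain ⟨w, hw, hl⟩ := hlong
    obtain ⟨x, y, z, -, -, hy⟩ := window ι h σ M hM [] w [] (by simpa using hw) hl
    exact ⟨y, hy⟩
  refine ⟨?_, h2, ?_⟩
  · intro σ _ M hM a b c hw hb
    obtain ⟨x, y, z, hbe, -, hy⟩ := window ι h σ M hM a b c hw hb.ge
    exact ⟨x, y, z, hbe, hy⟩
  · rintro ⟨Y, hY⟩
    constructor
    · intro hreg
      by_contra hnf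
      obtain ⟨y, hy0, hy⟩ := h2 hreg (not_finite_iff_infinite.1 hnf)
      obtain ⟨K, hK⟩ := exists_bound ι h Y
      obtain ⟨n, v, hvY, hv, hvn⟩ := hY (ev ι y ^ (K + 1))
      obtain ⟨w, hw, hwl⟩ := hK v hvY
      have h3 := hy ((K + 1) * n) w (by rw [hw, hv, pow_mul])
      have h4 : 1 ≤ y.length := List.length_pos_iff.2 hy0
      have h5 : (K + 1) * n * 1 ≤ (K + 1) * n * y.length := Nat.mul_le_mul_left _ h4
      have h6 : K * v.length ≤ (K + 1) * v.length := Nat.mul_le_mul_right _ (Nat.le_succ K)
      have h7 : (K + 1) * v.length < (K + 1) * n := Nat.mul_lt_mul_of_pos_left hvn (Nat.succ_pos K)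
      omega
    · intro hf
      exact regular_of_finite (SL ι) ((finite_iff ι h).2 hf)

end Pool.Agent.Results.MP_d3f668_al.StraightWords
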